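import Pool.Agent.W2helper1.NR.F
import Pool.Agent.W2helper71.NR.A
import Pool.Agent.W2helper71.NR.D
import Pool.Agent.W2helper15.NR.B

/-!
# MP_d89a53_pr, Q1: norm regularization of random matrices with entries bounded by `K √n`

Answer: yes, with `C(K) = c K` for an absolute constant `c`, and with probability at least
`1 - 4 exp (-ε n) ≥ 1 - 7 exp (-ε n / 12)`.
-/

open MeasureTheory ProbabilityTheory

namespace Pool.Agent.Results.MP_d89a53_pr.BoundedEntries

universe u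

/-- The matrix `M` with the entries in `I × J` replaced by `0`. -/
def zeroed {n : ℕ} (M : Matrix (Fin n) (Fin n) ℝ) (I J : Finset (Fin n)) :
    Matrix (Fin n) (Fin n) ℝ :=
  fun i j => if i ∈ I ∧ j ∈ J then 0 else M i j

/-- The operator norm of a real `n × n` matrix on the Euclidean space `ℝⁿ`. -/
noncomputable def opNorm {n : ℕ} (M : Matrix (Fin n) (Fin n) ℝ) : ℝ :=
  ‖Matrix.toEuclideanCLM (n := Fin n) (𝕜 := ℝ) M‖

/-- The event that zeroing some `ε n × ε n` submatrix brings the operator norm below `N`. -/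
def goodEvent {n : ℕ} {Ω : Type u} (A : Fin n → Fin n → Ω → ℝ) (ε N : ℝ) : Set Ω :=
  {ω | ∃ I J : Finset (Fin n), (I.card : ℝ) ≤ ε * n ∧ (J.card : ℝ) ≤ ε * n ∧
    opNorm (zeroed (fun i j => A i j ω) I J) ≤ N}

/-- **Q1 of MP_d89a53_pr is true**, with `C(K) = c K`; identical distribution is not needed. -/
theorem result : ∃ c : ℝ, ∀ K : ℝ, 1 ≤ K → ∀ (n : ℕ) (ε : ℝ), 0 < ε → ε ≤ 1 / 6 →
    ∀ (Ω : Type u) [MeasurableSpace Ω] (P : Measure Ω) [IsProbabilityMeasure P]
      (A : Fin n → Fin n → Ω → ℝ),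
      (∀ i j, Measurable (A i j)) →
      iIndepFun (fun p : Fin n × Fin n => A p.1 p.2) P →
      (∀ i j, ∫ ω, A i j ω ∂P = 0) →
      (∀ i j, ∫ ω, (A i j ω) ^ 2 ∂P ≤ 1) →
      (∀ i j, ∀ᵐ ω ∂P, |A i j ω| ≤ K * √n) →
      MeasurableSet (goodEvent A ε (c * K * Real.log (1 / ε) * √n)) ∧
      1 - 4 * Real.exp (-(ε * n)) ≤
        P.real (goodEvent A ε (c * K * Real.log (1 / ε) * √n)) ∧
      1 - 7 * Real.exp (-(ε * n) / 12) ≤
        P.real (goodEvent A ε (c * K * Real.log (1 / ε) * √n)) := by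
  refine ⟨300000, fun K hK n ε hε hε6 Ω _ P _ A hA hind hmean hvar hbdd => ?_⟩
  have h := Pool.Agent.W2helper1.NR.main (P := P) Pool.Agent.W2helper15.NR.pieceB
    (Pool.Agent.W2helper71.NR.pieceD Pool.Agent.W2helper71.NR.pieceA) K ε hK hε hε6 A hA hind
    hmean hvar hbdd
  have h1 : MeasurableSet (goodEvent A ε (300000 * K * Real.log (1 / ε) * √n)) := h.1
  have h2 : 1 - 4 * Real.exp (-(ε * n)) ≤
      P.real (goodEvent A ε (300000 * K * Real.log (1 / ε) * √n)) := h.2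
  refine ⟨h1, h2, le_trans ?_ h2⟩
  have h3 : Real.exp (-(ε * n)) ≤ Real.exp (-(ε * n) / 12) := by
    refine Real.exp_le_exp.2 ?_
    have : 0 ≤ ε * n := by positivity
    linarith
  have h4 := Real.exp_pos (-(ε * n) / 12)
  linarith

end Pool.Agent.Results.MP_d89a53_pr.BoundedEntries
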